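import Mathlib
import Pool.Agent.V11171.Rich

/-!
# MP_dfec24_co: `S^9 (t_{6,2})` is not rich

The prefix of length `34` of `S^9 (t_{6,2})` has only `34` distinct palindromic factors (the empty
word included).
-/

set_option autoImplicit false

open Pool.Agent.V11171.Rich

namespace Pool.Agent.Results.MP_dfec24_co.NotRich

/-- The operation `S`: `S(u)_n = (u_n + u_{n+1}) mod 2`. -/
def S (u : ℕ → ℕ) : ℕ → ℕ := fun n => (u n + u (n + 1)) % 2

/-- The generalized Thue-Morse word `t_{b,2}`: sum of the base `b` digits of `n`, modulo `2`. -/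
def t (b : ℕ) : ℕ → ℕ := fun n => (Nat.digits b n).sum % 2

/-- the prefix of length `34` of `S^9 (t_{6,2})` is not rich -/
theorem not_rich_pre : ¬ RichWord (factor (S^[9] (t 6)) 0 34) :=
  not_rich _ (by decide +kernel)

/-- **MP_dfec24_co, Q1 is false.** It is not true that `S^k (t_{b,2})` is rich for every `b ≥ 2` and
every `k ≥ 1`: the prefix of length `34` of `S^9 (t_{6,2})` is not rich. -/
theorem result : ¬ ∀ b : ℕ, 2 ≤ b → ∀ k : ℕ, 1 ≤ k → RichInf (S^[k] (t b)) :=
  fun h => not_rich_pre (h 6 (by norm_num) 9 (by norm_num) 0 34)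

end Pool.Agent.Results.MP_dfec24_co.NotRich
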